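import Mathlib

/-!
# Deterministic numbers with normal reciprocals: definitions and elementary facts

`ee x = exp(2 π i x)`; `nd x` is the distance of `x` to the nearest integer; for a finite set `S`
of positions `wt δ S A` is the probability that the random subset of `S`, which contains `s` with
probability `δ s` independently, equals `A`, and `EE δ S f` is the expectation of `f`.
`Z r A = ∑_{s ∈ A} r^{-(s+1)}`, `tail r A` the same for infinite sets.
-/

set_option autoImplicit false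

open Finset Filter Topology

namespace Pool.Agent.W809.DN

/-- `exp(2 π i x)` -/
noncomputable def ee (x : ℝ) : ℂ := Complex.exp (2 * Real.pi * Complex.I * x)

/-- distance to the nearest integer -/
noncomputable def nd (x : ℝ) : ℝ := |x - round x|

/-- weight of `A` in the random subset of `S` -/
noncomputable def wt (δ : ℕ → ℝ) (S A : Finset ℕ) : ℝ :=
  (∏ s ∈ A, δ s) * ∏ s ∈ S \ A, (1 - δ s)

/-- expectation over the random subset of `S` -/
noncomputable def EE {V : Type} [AddCommMonoid V] [Module ℝ V] (δ : ℕ → ℝ) (S : Finset ℕ)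
    (f : Finset ℕ → V) : V := ∑ A ∈ S.powerset, wt δ S A • f A

/-- `∑_{s ∈ A} r^{-(s+1)}` -/
noncomputable def Z (r : ℕ) (A : Finset ℕ) : ℝ := ∑ s ∈ A, ((r : ℝ)⁻¹) ^ (s + 1)

/-- `∑_{s ∈ A} r^{-(s+1)}` for an arbitrary set -/
noncomputable def tail (r : ℕ) (A : Set ℕ) : ℝ :=
  ∑' s : ℕ, A.indicator (fun s => ((r : ℝ)⁻¹) ^ (s + 1)) s

/-- admissible probabilities -/
def Adm (δ : ℕ → ℝ) : Prop := ∀ s, 0 ≤ δ s ∧ δ s ≤ 1 / 2

/-- average of `ee (h r^n x)` -/
noncomputable def SS (r h N : ℕ) (x : ℝ) : ℂ :=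
  (1 / (N : ℂ)) * ∑ n ∈ range N, ee ((h : ℝ) * (r : ℝ) ^ n * x)

theorem ee_add (x y : ℝ) : ee (x + y) = ee x * ee y := by
  unfold ee
  rw [← Complex.exp_add]
  congr 1
  push_cast
  ring

theorem ee_zero : ee 0 = 1 := by simp [ee]

theorem norm_ee (x : ℝ) : ‖ee x‖ = 1 := by
  unfold ee
  rw [show (2 * (Real.pi : ℂ) * Complex.I * (x : ℂ)) = ((2 * Real.pi * x : ℝ) : ℂ) * Complex.I by
    push_cast; ring, Complex.norm_exp_ofReal_mul_I]

theorem ee_neg (x : ℝ) : ee (-x) = (starRingEnd ℂ) (ee x) := by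
  unfold ee
  rw [← Complex.exp_conj]
  congr 1
  simp only [map_mul, Complex.conj_ofReal, Complex.conj_I, map_ofNat]
  push_cast
  ring

theorem ee_sum {ι : Type} (s : Finset ι) (f : ι → ℝ) :
    ee (∑ i ∈ s, f i) = ∏ i ∈ s, ee (f i) := by
  classical
  induction s using Finset.induction_on with
  | empty => simp [ee_zero]
  | insert a s ha ih => rw [Finset.sum_insert ha, Finset.prod_insert ha, ee_add, ih]

theorem ee_sub_le (x y : ℝ) : ‖ee x - ee y‖ ≤ 2 * Real.pi * |x - y| := by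
  have e : ee x - ee y = ee y * (ee (x - y) - 1) := by
    rw [mul_sub, mul_one, ← ee_add]
    congr 2
    ring
  rw [e, norm_mul, norm_ee, one_mul]
  unfold ee
  have h := Real.norm_exp_I_mul_ofReal_sub_one_le (x := 2 * Real.pi * (x - y))
  rw [show (2 * (Real.pi : ℂ) * Complex.I * ((x - y : ℝ) : ℂ)) =
    Complex.I * ((2 * Real.pi * (x - y) : ℝ) : ℂ) by push_cast; ring]
  refine h.trans ?_
  rw [Real.norm_eq_abs, abs_mul, abs_of_pos (by positivity : (0 : ℝ) < 2 * Real.pi)]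

theorem nd_nonneg (x : ℝ) : 0 ≤ nd x := abs_nonneg _

theorem nd_le_half (x : ℝ) : nd x ≤ 1 / 2 := abs_sub_round x

theorem nd_le (x : ℝ) (k : ℤ) : nd x ≤ |x - k| := round_le x k

theorem nd_neg (x : ℝ) : nd (-x) = nd x := by
  apply le_antisymm
  · have h := nd_le (-x) (-(round x))
    refine h.trans (le_of_eq ?_)
    unfold nd
    push_cast
    rw [show -x - -(round x : ℝ) = -(x - round x) by ring, abs_neg]
  · have h := nd_le x (-(round (-x)))
    refine h.trans (le_of_eq ?_)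
    unfold nd
    push_cast
    rw [show x - -(round (-x) : ℝ) = -(-x - round (-x)) by ring, abs_neg]

theorem wt_nonneg {δ : ℕ → ℝ} (h : ∀ s, 0 ≤ δ s ∧ δ s ≤ 1) {S A : Finset ℕ} : 0 ≤ wt δ S A :=
  mul_nonneg (Finset.prod_nonneg fun s _ => (h s).1)
    (Finset.prod_nonneg fun s _ => by linarith [(h s).2])

theorem sum_wt (δ : ℕ → ℝ) (S : Finset ℕ) : ∑ A ∈ S.powerset, wt δ S A = 1 := by
  unfold wt
  rw [← Finset.prod_add]
  exact Finset.prod_eq_one fun s _ => by ring

/-- expectation of a product -/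
theorem EE_prod (δ : ℕ → ℝ) (S : Finset ℕ) (z : ℕ → ℂ) :
    EE δ S (fun A => ∏ s ∈ A, z s) = ∏ s ∈ S, (1 - δ s + δ s * z s : ℂ) := by
  unfold EE wt
  have : ∀ s ∈ S, (1 - δ s + δ s * z s : ℂ) = (δ s * z s : ℂ) + (1 - δ s : ℂ) :=
    fun s _ => by ring
  rw [Finset.prod_congr rfl this, Finset.prod_add]
  refine Finset.sum_congr rfl fun A _ => ?_
  rw [Complex.real_smul, Finset.prod_mul_distrib]
  push_cast
  ring

theorem EE_const {V : Type} [AddCommMonoid V] [Module ℝ V] (δ : ℕ → ℝ) (S : Finset ℕ) (c : V) :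
    EE δ S (fun _ => c) = c := by
  unfold EE
  rw [← Finset.sum_smul, sum_wt, one_smul]

/-- expectation over a disjoint union -/
theorem EE_union {V : Type} [AddCommMonoid V] [Module ℝ V] (δ : ℕ → ℝ) (S T : Finset ℕ)
    (h : Disjoint S T) (f : Finset ℕ → V) :
    EE δ (S ∪ T) f = EE δ S (fun U => EE δ T (fun W => f (U ∪ W))) := by
  classical
  unfold EE
  simp_rw [Finset.smul_sum, smul_smul]
  rw [← Finset.sum_product']
  symm
  refine Finset.sum_bij' (fun p _ => p.1 ∪ p.2) (fun A _ => (A ∩ S, A ∩ T)) ?_ ?_ ?_ ?_ ?_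
  · intro p hp
    rw [Finset.mem_product, Finset.mem_powerset, Finset.mem_powerset] at hp
    rw [Finset.mem_powerset]
    exact Finset.union_subset_union hp.1 hp.2
  · intro A hA
    rw [Finset.mem_product, Finset.mem_powerset, Finset.mem_powerset]
    exact ⟨Finset.inter_subset_right, Finset.inter_subset_right⟩
  · intro p hp
    rw [Finset.mem_product, Finset.mem_powerset, Finset.mem_powerset] at hp
    have h1 : Disjoint p.2 S := (h.mono_right hp.2).symm
    have h2 : Disjoint p.1 T := h.mono_left hp.1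
    ext1
    · change (p.1 ∪ p.2) ∩ S = p.1
      rw [Finset.union_inter_distrib_right, Finset.inter_eq_left.2 hp.1,
        Finset.disjoint_iff_inter_eq_empty.1 h1, Finset.union_empty]
    · change (p.1 ∪ p.2) ∩ T = p.2
      rw [Finset.union_inter_distrib_right, Finset.inter_eq_left.2 hp.2,
        Finset.disjoint_iff_inter_eq_empty.1 h2, Finset.empty_union]
  · intro A hA
    rw [Finset.mem_powerset] at hA
    change A ∩ S ∪ A ∩ T = A
    rw [← Finset.inter_union_distrib_left, Finset.inter_eq_left.2 hA]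
  · intro p hp
    rw [Finset.mem_product, Finset.mem_powerset, Finset.mem_powerset] at hp
    have h1 : Disjoint p.1 p.2 := (h.mono_left hp.1).mono_right hp.2
    have h2 : (S ∪ T) \ (p.1 ∪ p.2) = (S \ p.1) ∪ (T \ p.2) := by
      ext s
      simp only [Finset.mem_sdiff, Finset.mem_union, not_or]
      constructor
      · rintro ⟨hs | hs, h3, h4⟩
        · exact Or.inl ⟨hs, h3⟩
        · exact Or.inr ⟨hs, h4⟩
      · rintro (⟨hs, h3⟩ | ⟨hs, h3⟩)
        · exact ⟨Or.inl hs, h3, fun h4 => Finset.disjoint_left.1 h hs (hp.2 h4)⟩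
        · exact ⟨Or.inr hs, fun h4 => Finset.disjoint_left.1 h (hp.1 h4) hs, h3⟩
    have h3 : Disjoint (S \ p.1) (T \ p.2) :=
      (h.mono_left Finset.sdiff_subset).mono_right Finset.sdiff_subset
    change (wt δ S p.1 * wt δ T p.2) • f (p.1 ∪ p.2) = wt δ (S ∪ T) (p.1 ∪ p.2) • f (p.1 ∪ p.2)
    congr 1
    unfold wt
    rw [h2, Finset.prod_union h1, Finset.prod_union h3]
    ring

theorem norm_EE_le {V : Type} [NormedAddCommGroup V] [NormedSpace ℝ V] {δ : ℕ → ℝ}
    (h : ∀ s, 0 ≤ δ s ∧ δ s ≤ 1) (S : Finset ℕ) (f : Finset ℕ → V) :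
    ‖EE δ S f‖ ≤ EE δ S (fun A => ‖f A‖) := by
  unfold EE
  refine (norm_sum_le _ _).trans (le_of_eq ?_)
  refine Finset.sum_congr rfl fun A _ => ?_
  rw [norm_smul, Real.norm_of_nonneg (wt_nonneg h), smul_eq_mul]

theorem EE_mono {δ : ℕ → ℝ} (h : ∀ s, 0 ≤ δ s ∧ δ s ≤ 1) (S : Finset ℕ) {f g : Finset ℕ → ℝ}
    (hfg : ∀ A ∈ S.powerset, f A ≤ g A) : EE δ S f ≤ EE δ S g := by
  unfold EE
  refine Finset.sum_le_sum fun A hA => ?_
  rw [smul_eq_mul, smul_eq_mul]
  exact mul_le_mul_of_nonneg_left (hfg A hA) (wt_nonneg h)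

theorem EE_add {V : Type} [AddCommMonoid V] [Module ℝ V] (δ : ℕ → ℝ) (S : Finset ℕ)
    (f g : Finset ℕ → V) : EE δ S (fun A => f A + g A) = EE δ S f + EE δ S g := by
  unfold EE
  simp_rw [smul_add]
  rw [Finset.sum_add_distrib]

theorem EE_smul {V : Type} [AddCommMonoid V] [Module ℝ V] (δ : ℕ → ℝ) (S : Finset ℕ) (c : ℝ)
    (f : Finset ℕ → V) : EE δ S (fun A => c • f A) = c • EE δ S f := by
  unfold EE
  rw [Finset.smul_sum]
  refine Finset.sum_congr rfl fun A _ => ?_
  rw [smul_smul, smul_smul, mul_comm]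

theorem EE_sum {V : Type} [AddCommMonoid V] [Module ℝ V] {ι : Type} (δ : ℕ → ℝ) (S : Finset ℕ)
    (s : Finset ι) (f : ι → Finset ℕ → V) :
    EE δ S (fun A => ∑ i ∈ s, f i A) = ∑ i ∈ s, EE δ S (f i) := by
  unfold EE
  simp_rw [Finset.smul_sum]
  rw [Finset.sum_comm]

theorem Adm.le_one {δ : ℕ → ℝ} (h : Adm δ) : ∀ s, 0 ≤ δ s ∧ δ s ≤ 1 :=
  fun s => ⟨(h s).1, (h s).2.trans (by norm_num)⟩

theorem Z_nonneg (r : ℕ) (A : Finset ℕ) : 0 ≤ Z r A :=
  Finset.sum_nonneg fun _ _ => by positivity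

theorem Z_union {r : ℕ} {A B : Finset ℕ} (h : Disjoint A B) : Z r (A ∪ B) = Z r A + Z r B := by
  unfold Z
  exact Finset.sum_union h

end Pool.Agent.W809.DN
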