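import Pool.Agent.W809.DN.Defs

/-!
# Deterministic numbers with normal reciprocals: the statements of the parts
-/

set_option autoImplicit false

open Finset Filter Topology

namespace Pool.Agent.W809.DN

/-- (CHR) characteristic function of the random sum -/
def S_CHR : Prop := ∀ (δ : ℕ → ℝ), Adm δ → ∀ (S : Finset ℕ) (θ : ℕ → ℝ),
  ‖EE δ S (fun A => ee (∑ s ∈ A, θ s))‖ ≤ Real.exp (-(4 * ∑ s ∈ S, δ s * nd (θ s) ^ 2))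

/-- (ANT) anti-concentration -/
def S_ANT : Prop := ∀ (r : ℕ), 2 ≤ r → ∀ (δ : ℕ → ℝ), Adm δ → ∀ (a j1 j2 : ℕ) (κ ρ : ℝ),
  j1 ≤ j2 → j2 ≤ a → 0 < κ → 0 < ρ → ρ ≤ 1 / 4 → 2 * κ * ((r : ℝ)⁻¹) ^ j1 ≤ 1 / 4 →
  ρ ≤ κ / 4 * ((r : ℝ)⁻¹) ^ j2 →
  EE δ (range a) (fun U => if nd (κ / (1 + Z r U) ^ 2) < ρ / 2 then (1 : ℝ) else 0) ≤
    ∏ s ∈ Ico j1 j2, (1 - δ s)

/-- (BLK) a block whose last value is not tiny contains a large value -/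
def S_BLK : Prop := ∀ (r L s0 : ℕ) (θ : ℕ → ℝ), 2 ≤ r → 1 ≤ L → L ≤ s0 + 1 →
  (∀ s, θ s = (r : ℝ) * θ (s + 1)) → ((r : ℝ)⁻¹) ^ L / 2 ≤ nd (θ s0) →
  ∃ s, s0 + 1 - L ≤ s ∧ s ≤ s0 ∧ 1 / (2 * (r : ℝ)) ≤ nd (θ s)

/-- (WIN) the window estimate -/
def S_WIN : Prop := ∀ (r : ℕ), 2 ≤ r → ∀ (δ : ℕ → ℝ), Adm δ → Antitone δ →
  ∀ (h m n a L l B M : ℕ), 1 ≤ h → m < n → 8 * h ≤ r ^ l → l + 5 ≤ L → a ≤ n → B * L ≤ n - a →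
  B * L ≤ a → n ≤ M →
  ‖EE δ (range M) (fun A => ee ((h : ℝ) * ((r : ℝ) ^ n - (r : ℝ) ^ m) * (1 + Z r A)⁻¹))‖ ≤
    B * Real.exp (-(((L : ℝ) - 4 - l) * δ n)) + Real.exp (-(B * δ n / (r : ℝ) ^ 2)) +
      2 * Real.pi * h * (r : ℝ) ^ n * ((r : ℝ)⁻¹) ^ (2 * a)

/-- the slowly decreasing probabilities used for the reciprocal -/
noncomputable def d0 (s : ℕ) : ℝ := 1 / ((Nat.sqrt (Nat.sqrt s) : ℝ) + 2)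

/-- (KEY) correlation estimate for the reciprocal -/
def S_KEY : Prop := ∀ (r : ℕ), 2 ≤ r → ∀ (h : ℕ), 1 ≤ h → ∃ C : ℝ, 0 < C ∧ ∀ (m n M : ℕ), m < n →
  n ≤ M →
  ‖EE d0 (range M) (fun A => ee ((h : ℝ) * ((r : ℝ) ^ n - (r : ℝ) ^ m) * (1 + Z r A)⁻¹))‖ ≤
    C / ((n : ℝ) + 1)

/-- (SEC) second moment -/
def S_SEC : Prop := ∀ (δ : ℕ → ℝ), (∀ s, 0 ≤ δ s ∧ δ s ≤ 1) → ∀ (S : Finset ℕ)
  (x : Finset ℕ → ℝ) (r h N : ℕ), 1 ≤ N →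
  EE δ S (fun A => ‖SS r h N (x A)‖ ^ 2) ≤ 1 / (N : ℝ) + 2 / (N : ℝ) ^ 2 *
    ∑ n ∈ range N, ∑ m ∈ range n,
      ‖EE δ S (fun A => ee ((h : ℝ) * ((r : ℝ) ^ n - (r : ℝ) ^ m) * x A))‖

/-- (EXI) existence of an infinite set from estimates in mean -/
def S_EXI : Prop := ∀ (δ : ℕ → ℝ), (∀ s, 0 ≤ δ s ∧ δ s ≤ 1) →
  ∀ (g : ℕ → ℕ → Set ℕ → ℝ) (c : ℕ → ℕ → ℝ), (∀ h j A, 0 ≤ g h j A) →
  (∀ h j, ∀ ε : ℝ, 0 < ε → ∃ M0 : ℕ, ∀ M, M0 ≤ M → ∀ A : Set ℕ,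
    |g h j A - g h j (A ∩ Set.Iio M)| ≤ ε) →
  (∀ h j, ∃ M0 : ℕ, ∀ M, M0 ≤ M → EE δ (range M) (fun A => g h j (A : Set ℕ)) ≤ c h j) →
  (∀ h, Summable (c h)) →
  ∃ A : Set ℕ, ∀ h, Tendsto (fun j => g h j A) atTop (𝓝 0)

/-- (WEY) exponential sums and frequencies of blocks, along a sequence of lengths -/
def S_WEY : Prop := ∀ (r : ℕ), 2 ≤ r → ∀ (x : ℝ) (N : ℕ → ℕ), Tendsto N atTop atTop →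
  (∀ h : ℕ, 1 ≤ h → Tendsto (fun j => SS r h (N j) x) atTop (𝓝 0)) →
  ∀ (k : ℕ) (w : Fin k → Fin r), Tendsto (fun j => (((range (N j)).filter (fun i =>
    ∀ t : Fin k, ⌊x * (r : ℝ) ^ (i + (t : ℕ) + 1)⌋ % (r : ℤ) = ((w t : ℕ) : ℤ))).card : ℝ) /
      (N j : ℝ)) atTop (𝓝 (1 / (r : ℝ) ^ k))

/-- (CES) averages along squares -/
def S_CES : Prop := ∀ (a : ℕ → ℂ), (∀ n, ‖a n‖ ≤ 1) →
  Tendsto (fun j : ℕ => (1 / ((j ^ 2 : ℕ) : ℂ)) * ∑ n ∈ range (j ^ 2), a n) atTop (𝓝 0) →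
  Tendsto (fun N : ℕ => (1 / (N : ℂ)) * ∑ n ∈ range N, a n) atTop (𝓝 0)

/-- centred density of `A` in `{0,…,N-1}` -/
noncomputable def TT (δ : ℕ → ℝ) (N : ℕ) (A : Set ℕ) : ℝ :=
  (1 / (N : ℝ)) * ∑ s ∈ range N, (A.indicator (fun _ => (1 : ℝ)) s - δ s)

/-- (DNA) -/
def S_DNA : Prop := ∀ (δ : ℕ → ℝ), (∀ s, 0 ≤ δ s ∧ δ s ≤ 1) → ∀ (N M : ℕ), 1 ≤ N → N ≤ M →
  EE δ (range M) (fun A => TT δ N (A : Set ℕ) ^ 2) ≤ 1 / (N : ℝ)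

/-- (DNB) -/
def S_DNB : Prop := ∀ (δ : ℕ → ℝ), (∀ s, 0 ≤ δ s ∧ δ s ≤ 1) → Tendsto δ atTop (𝓝 0) →
  ∀ A : Set ℕ, Tendsto (fun j : ℕ => TT δ (j ^ 2) A ^ 2) atTop (𝓝 0) →
  Tendsto (fun N : ℕ => (1 / (N : ℝ)) * ∑ s ∈ range N, A.indicator (fun _ => (1 : ℝ)) s) atTop
    (𝓝 0)

/-- (DIG) the digits of `c + tail r A` -/
def S_DIG : Prop := ∀ (r : ℕ), 2 ≤ r → ∀ (A : Set ℕ), (∀ M : ℕ, ∃ s, M ≤ s ∧ s ∉ A) →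
  ∀ (c i : ℕ), ⌊((c : ℝ) + tail r A) * (r : ℝ) ^ (i + 1)⌋ % (r : ℤ) =
    A.indicator (fun _ => (1 : ℤ)) i

/-- (ENA) few nonzero digits: small entropy of the digits -/
def S_ENA : Prop := ∀ (r : ℕ), 2 ≤ r → ∀ x : ℝ,
  Tendsto (fun N : ℕ => (((range N).filter (fun i =>
    ⌊x * (r : ℝ) ^ (i + 1)⌋ % (r : ℤ) ≠ 0)).card : ℝ) / (N : ℝ)) atTop (𝓝 0) →
  Tendsto (fun N : ℕ => ∑ w : Fin 1 → Fin r, Real.negMulLog ((((range N).filter (fun i =>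
    ∀ t : Fin 1, ⌊x * (r : ℝ) ^ (i + (t : ℕ) + 1)⌋ % (r : ℤ) = ((w t : ℕ) : ℤ))).card : ℝ) /
      (N : ℝ))) atTop (𝓝 0)

/-- (ENB) uniform frequencies: full entropy -/
def S_ENB : Prop := ∀ (r k : ℕ), 2 ≤ r → ∀ (f : (Fin k → Fin r) → ℕ → ℝ),
  (∀ w, Tendsto (f w) atTop (𝓝 (1 / (r : ℝ) ^ k))) →
  Tendsto (fun j => ∑ w, Real.negMulLog (f w j)) atTop (𝓝 ((k : ℝ) * Real.log r))

/-- (SLO) a slowly decreasing sequence -/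
def S_SLO : Prop := ∀ (c : ℕ → ℕ → ℕ), (∀ h, Tendsto (c h) atTop atTop) →
  ∃ δ : ℕ → ℝ, Adm δ ∧ Antitone δ ∧ (∀ s, 0 < δ s) ∧ Tendsto δ atTop (𝓝 0) ∧
    ∀ h, Tendsto (fun N => δ N * (c h N : ℝ)) atTop atTop

/-- number of `k < √N` with `‖β r^k‖ ≥ 1/(2r)` -/
noncomputable def cnt (r : ℕ) (β : ℝ) (N : ℕ) : ℕ := by
  classical
  exact ((range (Nat.sqrt N)).filter (fun k => 1 / (2 * (r : ℝ)) ≤ nd (β * (r : ℝ) ^ k))).card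

/-- (INF) -/
def S_INF : Prop := ∀ (r : ℕ), 2 ≤ r → ∀ β : ℝ, Irrational β → Tendsto (cnt r β) atTop atTop

/-- (LIN) the second moment for the multiplication by `b` -/
def S_LIN : Prop := ∀ (r : ℕ), 2 ≤ r → ∀ (b : ℝ) (h : ℕ), ∀ δ : ℕ → ℝ, Adm δ →
  Antitone δ → Tendsto (fun N => δ N * (cnt r ((h : ℝ) * b) N : ℝ)) atTop atTop →
  ∀ η : ℝ, 0 < η → ∃ N0 : ℕ, ∀ N, N0 ≤ N → ∀ M, N ≤ M →
    EE δ (range M) (fun A => ‖SS r h N (b * Z r A)‖ ^ 2) ≤ η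

end Pool.Agent.W809.DN
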